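import Pool.Agent.Olig.Uniq

/-!
# Non-reconstruction passes to the monoid closure when it is witnessed by a controlled isomorphism

`ω` is `ℕ` with the discrete topology, `ω^ω` is `ℕ → ℕ` with the product topology.
-/

open Equiv Topology

namespace Pool.Agent.Results.MP_c9589f_lc.ControlledWitness

/-- The set of functions given by the elements of a permutation group. -/
def funSet (Γ : Subgroup (Perm ℕ)) : Set (ℕ → ℕ) := {f | ∃ g ∈ Γ, f = ⇑g}

/-- `Γ` is closed in `Sym(ω)` (topology of pointwise convergence). -/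
def ClosedInSym (Γ : Subgroup (Perm ℕ)) : Prop :=
  ∀ g : Perm ℕ, (⇑g : ℕ → ℕ) ∈ closure (funSet Γ) → g ∈ Γ

/-- `Γ` is oligomorphic: finitely many orbits on `k`-tuples for every `k`. -/
def Oligomorphic (Γ : Subgroup (Perm ℕ)) : Prop :=
  ∀ k : ℕ, Finite (MulAction.orbitRel.Quotient Γ (Fin k → ℕ))

/-- A permutation as a self-map of `ω`. -/
def toEnd (g : Perm ℕ) : Function.End ℕ := fun x => g x

/-- The topology of pointwise convergence on a permutation group. -/
@[reducible] def grpTop (Γ : Subgroup (Perm ℕ)) : TopologicalSpace Γ :=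
  TopologicalSpace.induced (fun g => (⇑(g : Perm ℕ) : ℕ → ℕ)) Pi.topologicalSpace

/-- The topology of pointwise convergence on a transformation monoid. -/
@[reducible] def monTop (M : Submonoid (Function.End ℕ)) : TopologicalSpace M :=
  TopologicalSpace.induced (fun f => ((f : Function.End ℕ) : ℕ → ℕ)) Pi.topologicalSpace

/-- Topologically isomorphic permutation groups. -/
def TopIsoGrp (Γ Δ : Subgroup (Perm ℕ)) : Prop :=
  ∃ e : Γ ≃* Δ, @Continuous _ _ (grpTop Γ) (grpTop Δ) e ∧ @Continuous _ _ (grpTop Δ) (grpTop Γ) e.symm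

/-- Topologically isomorphic transformation monoids. -/
def TopIsoMon (M N : Submonoid (Function.End ℕ)) : Prop :=
  ∃ e : M ≃* N, @Continuous _ _ (monTop M) (monTop N) e ∧ @Continuous _ _ (monTop N) (monTop M) e.symm

theorem mem_closure_iff_finset {S : Set (ℕ → ℕ)} {f : ℕ → ℕ} :
    f ∈ closure S ↔ ∀ F : Finset ℕ, ∃ h ∈ S, ∀ x ∈ F, h x = f x := by
  classical
  constructor
  · intro hf F
    have ho : IsOpen {h : ℕ → ℕ | ∀ x ∈ F, h x = f x} := by
      have : {h : ℕ → ℕ | ∀ x ∈ F, h x = f x} = ⋂ x ∈ F, (fun h : ℕ → ℕ => h x) ⁻¹' {f x} := by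
        ext h
        simp
      rw [this]
      exact isOpen_biInter_finset fun x _ => (isOpen_discrete _).preimage (continuous_apply x)
    obtain ⟨h, h1, h2⟩ := mem_closure_iff.1 hf _ ho (fun x _ => rfl)
    exact ⟨h, h2, h1⟩
  · intro hf
    rw [mem_closure_iff]
    intro o ho hfo
    obtain ⟨I, u, hu, hsub⟩ := isOpen_pi_iff.1 ho f hfo
    obtain ⟨h, hS, hh⟩ := hf I
    refine ⟨h, hsub fun x hx => ?_, hS⟩
    rw [hh x hx]
    exact (hu x hx).2

theorem mem_closure_funSet {Γ : Subgroup (Perm ℕ)} {f : ℕ → ℕ} :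
    f ∈ closure (funSet Γ) ↔ Olig.Cl Γ f := by
  rw [mem_closure_iff_finset]
  constructor
  · intro h F
    obtain ⟨_, ⟨g, hg, rfl⟩, h1⟩ := h F
    exact ⟨g, hg, h1⟩
  · intro h F
    obtain ⟨g, hg, h1⟩ := h F
    exact ⟨_, ⟨g, hg, rfl⟩, h1⟩

/-- The monoid closure of `Γ` in `ω^ω`, a submonoid of the monoid of all maps `ω → ω`. -/
def monClosure (Γ : Subgroup (Perm ℕ)) : Submonoid (Function.End ℕ) where
  carrier := {f | (f : ℕ → ℕ) ∈ closure (funSet Γ)}
  one_mem' := show (⇑(1 : Perm ℕ) : ℕ → ℕ) ∈ closure (funSet Γ) from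
    subset_closure ⟨1, Γ.one_mem, rfl⟩
  mul_mem' := fun {f h} hf hh => by
    have h1 := mem_closure_funSet.1 hf
    have h2 := mem_closure_funSet.1 hh
    exact mem_closure_funSet.2 (h1.comp h2)

/-- The group of all permutations `g` such that `g` and its inverse lie in `M`. -/
def autGroup (M : Submonoid (Function.End ℕ)) : Subgroup (Perm ℕ) where
  carrier := {g | toEnd g ∈ M ∧ toEnd g⁻¹ ∈ M}
  one_mem' := ⟨M.one_mem, M.one_mem⟩
  mul_mem' := fun {a b} ha hb => ⟨show toEnd a * toEnd b ∈ M from M.mul_mem ha.1 hb.1, by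
    rw [mul_inv_rev]; exact show toEnd b⁻¹ * toEnd a⁻¹ ∈ M from M.mul_mem hb.2 ha.2⟩
  inv_mem' := fun {a} ha => ⟨ha.2, by rw [inv_inv]; exact ha.1⟩

/-- `M` is the endomorphism monoid of an `ω`-categorical structure with domain `ω`: `M` is closed
in `ω^ω` and the group of its invertible elements is oligomorphic. -/
def IsEndOmegaCategorical (M : Submonoid (Function.End ℕ)) : Prop :=
  IsClosed {f : ℕ → ℕ | (f : Function.End ℕ) ∈ M} ∧ Oligomorphic (autGroup M)

/-- The monoid `M` fails to have reconstruction. -/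
def MonFailsReconstruction (M : Submonoid (Function.End ℕ)) : Prop :=
  ∃ N : Submonoid (Function.End ℕ), IsEndOmegaCategorical N ∧ Nonempty (M ≃* N) ∧ ¬ TopIsoMon M N

/-- `U` is an open subgroup of `Γ`. -/
def IsOpenSubgroup (Γ U : Subgroup (Perm ℕ)) : Prop :=
  U ≤ Γ ∧ IsOpen[grpTop Γ] {g : Γ | (g : Perm ℕ) ∈ U}

/-- The profinite residual of `U`: the intersection of all open normal subgroups of `U`. -/
def residual (U : Subgroup (Perm ℕ)) : Set (Perm ℕ) :=
  {g | ∀ V : Subgroup (Perm ℕ), IsOpenSubgroup U V → (∀ u ∈ U, ∀ v ∈ V, u * v * u⁻¹ ∈ V) → g ∈ V}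

/-- The isomorphism `φ : Γ → Δ` is controlled: for every point `y` there is an open subgroup `U` of
`Γ` such that `φ` maps the residual of `U` into the stabiliser of `y`. -/
def Controlled {Γ Δ : Subgroup (Perm ℕ)} (φ : Γ ≃* Δ) : Prop :=
  ∀ y : ℕ, ∃ U : Subgroup (Perm ℕ), IsOpenSubgroup Γ U ∧
    ∀ g : Γ, (g : Perm ℕ) ∈ residual U → (φ g : Perm ℕ) y = y

theorem closedG {Γ : Subgroup (Perm ℕ)} (h : ClosedInSym Γ) : Olig.ClosedG Γ :=
  fun g hg => h g (mem_closure_funSet.2 hg)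

theorem oligo {Γ : Subgroup (Perm ℕ)} (h : Oligomorphic Γ) : Olig.Oligo Γ := by
  classical
  intro k
  have := h k
  refine ⟨(Set.finite_range (fun q : MulAction.orbitRel.Quotient Γ (Fin k → ℕ) =>
    Quotient.out q)).toFinset, fun x => ?_⟩
  let q : MulAction.orbitRel.Quotient Γ (Fin k → ℕ) := Quotient.mk _ x
  refine ⟨Quotient.out q, (Set.Finite.mem_toFinset _).2 ⟨q, rfl⟩, ?_⟩
  have h1 : (MulAction.orbitRel Γ (Fin k → ℕ)).r x (Quotient.out q) :=
    Quotient.exact (Quotient.out_eq q).symm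
  obtain ⟨g, hg⟩ := h1
  exact ⟨g, g.2, fun i => congrFun hg i⟩

theorem isOpenSubgroup_iff {Γ U : Subgroup (Perm ℕ)} : IsOpenSubgroup Γ U ↔ Olig.OpenIn Γ U := by
  constructor
  · rintro ⟨hle, ho⟩
    refine ⟨hle, ?_⟩
    obtain ⟨t, ht, hts⟩ := (@isOpen_induced_iff _ _ Pi.topologicalSpace _ _).1 ho
    have h1 : (⇑(1 : Perm ℕ) : ℕ → ℕ) ∈ t := by
      have h2 : (1 : Γ) ∈ (fun g : Γ => (⇑(g : Perm ℕ) : ℕ → ℕ)) ⁻¹' t := by
        rw [hts]
        exact U.one_mem
      exact h2
    obtain ⟨I, u, hu, hsub⟩ := isOpen_pi_iff.1 ht _ h1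
    refine ⟨I, fun g hg h => ?_⟩
    have h3 : (⟨g, hg⟩ : Γ) ∈ (fun g : Γ => (⇑(g : Perm ℕ) : ℕ → ℕ)) ⁻¹' t := by
      refine hsub fun x hx => ?_
      have h4 := (hu x hx).2
      change g x ∈ u x
      rw [h x hx]
      exact h4
    rw [hts] at h3
    exact h3
  · rintro ⟨hle, A, hA⟩
    refine ⟨hle, (@isOpen_induced_iff _ _ Pi.topologicalSpace _ _).2
      ⟨⋃ v ∈ U, {f : ℕ → ℕ | ∀ x ∈ A, f x = v x}, ?_, ?_⟩⟩
    · refine isOpen_biUnion fun v _ => ?_
      have : {f : ℕ → ℕ | ∀ x ∈ A, f x = v x} = ⋂ x ∈ A, (fun h : ℕ → ℕ => h x) ⁻¹' {v x} := by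
        ext h
        simp
      rw [this]
      exact isOpen_biInter_finset fun x _ => (isOpen_discrete _).preimage (continuous_apply x)
    · ext g
      simp only [Set.mem_preimage, Set.mem_iUnion, Set.mem_ofPred_eq]
      constructor
      · rintro ⟨v, hv, h⟩
        have h1 : v⁻¹ * (g : Perm ℕ) ∈ U := hA _ (Γ.mul_mem (Γ.inv_mem (hle hv)) g.2) (fun x hx => by
          rw [Perm.mul_apply, Perm.inv_eq_iff_eq]; exact (h x hx))
        have := U.mul_mem hv h1
        rwa [mul_inv_cancel_left] at this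
      · intro hg
        exact ⟨g, hg, fun _ _ => rfl⟩

theorem mem_residual {U : Subgroup (Perm ℕ)} {g : Perm ℕ} (h : g ∈ Olig.Res U) :
    g ∈ residual U :=
  fun _ hV hn => Olig.mem_Res.1 h _ ⟨isOpenSubgroup_iff.1 hV, hn⟩

theorem ctrl {Γ Δ : Subgroup (Perm ℕ)} {φ : Γ ≃* Δ} (h : Controlled φ) :
    Olig.Ctrl φ.toMonoidHom := by
  intro y
  obtain ⟨U, hU, h1⟩ := h y
  exact ⟨U, isOpenSubgroup_iff.1 hU, fun g hg => h1 g (mem_residual hg)⟩

theorem mem_monClosure {Γ : Subgroup (Perm ℕ)} {f : Function.End ℕ} :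
    f ∈ monClosure Γ ↔ Olig.Cl Γ f := mem_closure_funSet

/-- the isomorphism of the closures -/
theorem monClosure_iso {Γ Δ : Subgroup (Perm ℕ)} (hc : ClosedInSym Γ) (ho : Oligomorphic Γ)
    (hc' : ClosedInSym Δ) (ho' : Oligomorphic Δ) (φ : Γ ≃* Δ) (h1 : Controlled φ)
    (h2 : Controlled φ.symm) : Nonempty (monClosure Γ ≃* monClosure Δ) := by
  obtain ⟨E, E', e1, e2, e3, e4, e5, _⟩ := Olig.exists_iso (closedG hc) (oligo ho) (closedG hc')
    (oligo ho') φ (ctrl h1) (ctrl h2)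
  exact ⟨
    { toFun := fun f => ⟨E f.1, mem_monClosure.2 (e1 _ (mem_monClosure.1 f.2))⟩
      invFun := fun f => ⟨E' f.1, mem_monClosure.2 (e2 _ (mem_monClosure.1 f.2))⟩
      left_inv := fun f => Subtype.ext (e4 _ (mem_monClosure.1 f.2))
      right_inv := fun f => Subtype.ext (e5 _ (mem_monClosure.1 f.2))
      map_mul' := fun f f' => Subtype.ext
        (e3 _ _ (mem_monClosure.1 f.2) (mem_monClosure.1 f'.2)) }⟩

theorem autGroup_monClosure {Δ : Subgroup (Perm ℕ)} (hc : ClosedInSym Δ) :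
    autGroup (monClosure Δ) = Δ := by
  ext g
  constructor
  · intro h
    exact hc g h.1
  · intro h
    exact ⟨mem_monClosure.2 (Olig.Cl.of_mem h), mem_monClosure.2 (Olig.Cl.of_mem (Δ.inv_mem h))⟩

theorem isEnd_monClosure {Δ : Subgroup (Perm ℕ)} (hc : ClosedInSym Δ) (ho : Oligomorphic Δ) :
    IsEndOmegaCategorical (monClosure Δ) :=
  ⟨(isClosed_closure : IsClosed (closure (funSet Δ))), by rw [autGroup_monClosure hc]; exact ho⟩

/-- the inclusion of `Γ` in its closure -/
def inc {Γ : Subgroup (Perm ℕ)} (g : Γ) : monClosure Γ :=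
  ⟨toEnd g, mem_monClosure.2 (Olig.Cl.of_mem g.2)⟩

theorem inc_mul {Γ : Subgroup (Perm ℕ)} (g h : Γ) : inc (g * h) = inc g * inc h := rfl

theorem inc_one {Γ : Subgroup (Perm ℕ)} : inc (1 : Γ) = 1 := rfl

theorem continuous_inc (Γ : Subgroup (Perm ℕ)) :
    @Continuous _ _ (grpTop Γ) (monTop (monClosure Γ)) inc := by
  refine continuous_induced_rng.2 ?_
  exact continuous_induced_dom

theorem val_continuous (M : Submonoid (Function.End ℕ)) :
    @Continuous _ _ (monTop M) Pi.topologicalSpace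
      (fun f : M => ((f : Function.End ℕ) : ℕ → ℕ)) := continuous_induced_dom

/-- an isomorphism of the closures restricts to the groups -/
theorem exists_restrict {Γ Δ : Subgroup (Perm ℕ)} (hc' : ClosedInSym Δ)
    (e : monClosure Γ ≃* monClosure Δ) (g : Γ) : ∃ d : Δ, inc d = e (inc g) := by
  have h1 : e (inc g) * e (inc g⁻¹) = 1 := by
    rw [← map_mul, ← inc_mul, mul_inv_cancel, inc_one, map_one]
  have h2 : e (inc g⁻¹) * e (inc g) = 1 := by
    rw [← map_mul, ← inc_mul, inv_mul_cancel, inc_one, map_one]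
  let p : Perm ℕ := ⟨((e (inc g)).1 : ℕ → ℕ), ((e (inc g⁻¹)).1 : ℕ → ℕ),
    fun x => congrFun (congrArg Subtype.val h2) x, fun x => congrFun (congrArg Subtype.val h1) x⟩
  have hp : p ∈ Δ := hc' p (e (inc g)).2
  exact ⟨⟨p, hp⟩, rfl⟩

theorem inc_injective {Γ : Subgroup (Perm ℕ)} : Function.Injective (inc : Γ → monClosure Γ) := by
  intro g h hgh
  exact Subtype.ext (DFunLike.coe_injective (congrArg Subtype.val hgh))

theorem topIsoGrp_of_topIsoMon {Γ Δ : Subgroup (Perm ℕ)} (hc : ClosedInSym Γ)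
    (hc' : ClosedInSym Δ) (h : TopIsoMon (monClosure Γ) (monClosure Δ)) : TopIsoGrp Γ Δ := by
  obtain ⟨e, he, he'⟩ := h
  choose r hr using exists_restrict hc' e
  choose r' hr' using exists_restrict hc e.symm
  refine ⟨{ toFun := r
            invFun := r'
            left_inv := fun g => inc_injective (by rw [hr', hr, e.symm_apply_apply])
            right_inv := fun g => inc_injective (by rw [hr, hr', e.apply_symm_apply])
            map_mul' := fun g h => inc_injective (by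
              rw [hr, inc_mul, map_mul, inc_mul, hr, hr]) }, ?_, ?_⟩
  · refine continuous_induced_rng.2 ?_
    have h1 := @Continuous.comp _ _ _ (grpTop Γ) (monTop _) (monTop _) _ _ he (continuous_inc Γ)
    have h2 := @Continuous.comp _ _ _ (grpTop Γ) (monTop _) Pi.topologicalSpace _ _
      (val_continuous (monClosure Δ)) h1
    refine (@continuous_congr _ _ (grpTop Γ) Pi.topologicalSpace _ _ (fun g => ?_)).1 h2
    exact (congrArg Subtype.val (hr g)).symm
  · refine continuous_induced_rng.2 ?_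
    have h1 := @Continuous.comp _ _ _ (grpTop Δ) (monTop _) (monTop _) _ _ he' (continuous_inc Δ)
    have h2 := @Continuous.comp _ _ _ (grpTop Δ) (monTop _) Pi.topologicalSpace _ _
      (val_continuous (monClosure Γ)) h1
    refine (@continuous_congr _ _ (grpTop Δ) Pi.topologicalSpace _ _ (fun g => ?_)).1 h2
    exact (congrArg Subtype.val (hr' g)).symm

/-- Let `Γ` be a closed oligomorphic permutation group which fails to have reconstruction, as
witnessed by a closed oligomorphic `Δ`, not topologically isomorphic to `Γ`, and an isomorphism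
`φ : Γ → Δ` such that `φ` and its inverse are controlled. Then the monoid closure of `Γ` fails to
have reconstruction. -/
theorem result (Γ : Subgroup (Perm ℕ)) (hc : ClosedInSym Γ) (ho : Oligomorphic Γ)
    (h : ∃ (Δ : Subgroup (Perm ℕ)) (φ : Γ ≃* Δ), ClosedInSym Δ ∧ Oligomorphic Δ ∧
      ¬ TopIsoGrp Γ Δ ∧ Controlled φ ∧ Controlled φ.symm) :
    MonFailsReconstruction (monClosure Γ) := by
  obtain ⟨Δ, φ, hc', ho', hn, h1, h2⟩ := h
  exact ⟨monClosure Δ, isEnd_monClosure hc' ho', monClosure_iso hc ho hc' ho' φ h1 h2,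
    fun h => hn (topIsoGrp_of_topIsoMon hc hc' h)⟩

end Pool.Agent.Results.MP_c9589f_lc.ControlledWitness
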